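import Mathlib

namespace Pool.Agent.Lib.MP_fefe6a_co

/-- Two proper `q`-colourings `c, c'` of `Γ` are related when some `g ∈ G` carries one to the
other, `c' (g v) = c v` for all vertices `v`. The classes are the `G`-orbits on proper
`q`-colourings. -/
def orbitSetoid {V : Type} (Γ : SimpleGraph V) (G : Subgroup (Γ ≃g Γ)) (q : ℕ) :
    Setoid (Γ.Coloring (Fin q)) where
  r c c' := ∃ g ∈ G, ∀ v, c' (g v) = c v
  iseqv :=
    { refl := fun c => ⟨1, G.one_mem, fun _ => rfl⟩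
      symm := by
        rintro c c' ⟨g, hg, h⟩
        refine ⟨g⁻¹, G.inv_mem hg, fun v => ?_⟩
        rw [← h]
        exact congrArg c' (RelIso.apply_inv_self g v)
      trans := by
        rintro c c' c'' ⟨g, hg, h⟩ ⟨g', hg', h'⟩
        refine ⟨g' * g, G.mul_mem hg' hg, fun v => ?_⟩
        rw [← h, ← h']
        rfl }

/-- `P` is the chromatic polynomial of `Γ`. -/
def IsChromaticPoly {V : Type} (Γ : SimpleGraph V) (P : Polynomial ℝ) : Prop :=
  ∀ q : ℕ, 0 < q → P.eval (q : ℝ) = (Nat.card (Γ.Coloring (Fin q)) : ℝ)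

/-- `Q` is the orbital chromatic polynomial of `(Γ, G)`. -/
def IsOrbitalChromaticPoly {V : Type} (Γ : SimpleGraph V) (G : Subgroup (Γ ≃g Γ))
    (Q : Polynomial ℝ) : Prop :=
  ∀ q : ℕ, 0 < q → Q.eval (q : ℝ) = (Nat.card (Quotient (orbitSetoid Γ G q)) : ℝ)

end Pool.Agent.Lib.MP_fefe6a_co
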