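import Mathlib
import Pool.Agent.Lib.MP_fefe6a_co.Defs

namespace Pool.Agent.Lib.MP_fefe6a_co

open Finset

/-- number of surjections `Fin n → Fin k` -/
noncomputable def surj (n k : ℕ) : ℕ := Nat.card {a : Fin n → Fin k // Function.Surjective a}

lemma card_image_eq {n q : ℕ} (T : Finset (Fin q)) :
    (univ.filter (fun a : Fin n → Fin q => univ.image a = T)).card = surj n T.card := by
  classical
  rw [← Fintype.card_subtype, surj, ← Nat.card_eq_fintype_card]
  let e : T ≃ Fin T.card := T.equivFin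
  refine Nat.card_congr
    { toFun := fun a => ⟨fun i => e ⟨a.1 i, a.2.subset (mem_image_of_mem _ (mem_univ i))⟩, fun j => ?_⟩
      invFun := fun b => ⟨fun i => (e.symm (b.1 i)).1, ?_⟩
      left_inv := fun a => by ext i; simp
      right_inv := fun b => by ext i; simp }
  · have h : (e.symm j).1 ∈ univ.image a.1 := by rw [a.2]; exact (e.symm j).2
    obtain ⟨i, -, hi⟩ := mem_image.1 h
    refine ⟨i, ?_⟩
    simp only [hi]
    simp
  · ext x
    simp only [mem_image, mem_univ, true_and]
    constructor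
    · rintro ⟨i, rfl⟩
      exact (e.symm (b.1 i)).2
    · intro hx
      obtain ⟨i, hi⟩ := b.2 (e ⟨x, hx⟩)
      exact ⟨i, by simp [hi]⟩

lemma sum_image_card {n q : ℕ} (W : ℕ → ℕ) :
    ∑ a : Fin n → Fin q, W (univ.image a).card
      = ∑ k ∈ range (n + 1), surj n k * q.choose k * W k := by
  classical
  rw [← Finset.sum_fiberwise_of_maps_to (s := univ) (t := range (n + 1))
    (g := fun a : Fin n → Fin q => (univ.image a).card)]
  · refine Finset.sum_congr rfl fun k _ => ?_
    rw [Finset.sum_congr rfl (g := fun _ => W k) (fun a ha => by rw [(mem_filter.1 ha).2])]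
    rw [sum_const, smul_eq_mul]
    congr 1
    rw [Finset.card_eq_sum_card_fiberwise (t := powersetCard k (univ : Finset (Fin q)))
      (f := fun a : Fin n → Fin q => univ.image a)]
    · rw [Finset.sum_congr rfl (g := fun _ => surj n k)]
      · simp [mul_comm]
      · intro T hT
        have hk : T.card = k := (mem_powersetCard.1 hT).2
        rw [← hk, ← card_image_eq (n := n) T]
        congr 1
        ext a
        simp only [mem_filter, mem_univ, true_and, and_iff_right_iff_imp]
        rintro rfl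
        rfl
    · intro a ha
      have := (mem_filter.1 (Finset.mem_coe.1 ha)).2
      simp [mem_powersetCard, this]
  · intro a _
    rw [mem_range]
    have := card_image_le (s := (univ : Finset (Fin n))) (f := a)
    simp at this
    omega

lemma card_fun_avoid {q r : ℕ} (S : Finset (Fin q)) :
    Nat.card {ρ : Fin r → Fin q // ∀ l, ρ l ∉ S} = (q - S.card) ^ r := by
  classical
  rw [Nat.card_congr (Equiv.subtypePiEquivPi (p := fun (_ : Fin r) (x : Fin q) => x ∉ S))]
  simp [Nat.card_eq_fintype_card, Fintype.card_subtype_compl]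

lemma card_inj_avoid {q t : ℕ} (S : Finset (Fin q)) :
    Nat.card {κ : Fin t → Fin q // Function.Injective κ ∧ ∀ l, κ l ∉ S}
      = (q - S.card).descFactorial t := by
  classical
  have e : {κ : Fin t → Fin q // Function.Injective κ ∧ ∀ l, κ l ∉ S}
      ≃ (Fin t ↪ {x : Fin q // x ∉ S}) :=
    { toFun := fun κ => ⟨fun l => ⟨κ.1 l, κ.2.2 l⟩, fun a b h => κ.2.1 (congrArg Subtype.val h)⟩
      invFun := fun f => ⟨fun l => (f l).1, fun a b h => f.injective (Subtype.ext h),
        fun l => (f l).2⟩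
      left_inv := fun κ => rfl
      right_inv := fun f => rfl }
  rw [Nat.card_congr e]
  simp [Nat.card_eq_fintype_card, Fintype.card_embedding_eq, Fintype.card_subtype_compl]

lemma card_sym_avoid {q m : ℕ} (S : Finset (Fin q)) :
    Nat.card {μ : Sym (Fin q) m // ∀ x ∈ μ, x ∉ S} = (q - S.card).multichoose m := by
  classical
  have h : Nat.card (Sym {x : Fin q // x ∉ S} m) = (q - S.card).multichoose m := by
    rw [Nat.card_eq_fintype_card, Sym.card_sym_eq_multichoose]
    simp [Fintype.card_subtype_compl]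
  rw [← h]
  symm
  refine Nat.card_congr (Equiv.ofBijective
    (fun ν => ⟨ν.map Subtype.val, fun x hx => ?_⟩) ⟨fun a b hab => ?_, fun μ => ?_⟩)
  · obtain ⟨y, -, rfl⟩ := Sym.mem_map.1 hx
    exact y.2
  · exact Sym.map_injective Subtype.val_injective m (congrArg Subtype.val hab)
  · refine ⟨μ.1.attach.map (fun x => ⟨x.1, μ.2 x.1 x.2⟩), ?_⟩
    apply Subtype.ext
    simp only [Sym.map_map]
    exact Sym.attach_map_coe μ.1

lemma card_four {A B C D : Type} [Fintype A] [Finite B] [Finite C] [Finite D]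
    (P : A → B → Prop) (Q : A → B → C → Prop) (R : A → D → Prop)
    (x y z : A → ℕ) (hP : ∀ a, Nat.card {b // P a b} = x a)
    (hQ : ∀ a b, P a b → Nat.card {c // Q a b c} = y a)
    (hR : ∀ a, Nat.card {d // R a d} = z a) :
    Nat.card {p : A × B × C × D // P p.1 p.2.1 ∧ Q p.1 p.2.1 p.2.2.1 ∧ R p.1 p.2.2.2}
      = ∑ a, x a * y a * z a := by
  classical
  have e : {p : A × B × C × D // P p.1 p.2.1 ∧ Q p.1 p.2.1 p.2.2.1 ∧ R p.1 p.2.2.2}
      ≃ Σ a : A, Σ b : {b // P a b}, {c // Q a b.1 c} × {d // R a d} :=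
    { toFun := fun p => ⟨p.1.1, ⟨p.1.2.1, p.2.1⟩, ⟨p.1.2.2.1, p.2.2.1⟩, ⟨p.1.2.2.2, p.2.2.2⟩⟩
      invFun := fun s => ⟨(s.1, s.2.1.1, s.2.2.1.1, s.2.2.2.1), s.2.1.2, s.2.2.1.2, s.2.2.2.2⟩
      left_inv := fun p => rfl
      right_inv := fun s => rfl }
  rw [Nat.card_congr e, Nat.card_sigma]
  refine Finset.sum_congr rfl fun a _ => ?_
  have : Fintype {b // P a b} := Fintype.ofFinite _
  rw [Nat.card_sigma, Finset.sum_congr rfl (g := fun _ => y a * z a)]
  · rw [sum_const, smul_eq_mul, card_univ, ← Nat.card_eq_fintype_card, hP, mul_assoc]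
  · intro b _
    rw [Nat.card_prod, hQ a b.1 b.2, hR]

/-- vertex type -/
abbrev Vx (n t r m : ℕ) : Type := (Fin n ⊕ Fin t) ⊕ (Fin r ⊕ Fin m)

/-- one-sided adjacency -/
def adj0 {n t r m : ℕ} : Vx n t r m → Vx n t r m → Prop
  | .inl (.inl _), .inl (.inr _) => True
  | .inl (.inl _), .inr _ => True
  | .inl (.inr _), .inl (.inr _) => True
  | .inl (.inr _), .inr (.inl _) => True
  | _, _ => False

/-- the graph -/
def gr (n t r m : ℕ) : SimpleGraph (Vx n t r m) := SimpleGraph.fromRel adj0

/-- the properness conditions on the four parts of a colouring -/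
def Good {n t r q : ℕ} {D : Type} (R : (Fin n → Fin q) → D → Prop)
    (p : (Fin n → Fin q) × (Fin t → Fin q) × (Fin r → Fin q) × D) : Prop :=
  (Function.Injective p.2.1 ∧ ∀ l, p.2.1 l ∉ univ.image p.1) ∧
    (∀ l, p.2.2.1 l ∉ univ.image p.1 ∪ univ.image p.2.1) ∧ R p.1 p.2.2.2

lemma card_good {n t r q : ℕ} {D : Type} [Finite D] (R : (Fin n → Fin q) → D → Prop)
    (z : ℕ → ℕ) (hR : ∀ a, Nat.card {d // R a d} = z (univ.image a).card) :
    Nat.card {p // Good (t := t) (r := r) R p}
      = ∑ k ∈ range (n + 1),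
          surj n k * q.choose k * ((q - k).descFactorial t * (q - (k + t)) ^ r * z k) := by
  rw [← sum_image_card (fun k => (q - k).descFactorial t * (q - (k + t)) ^ r * z k)]
  refine card_four (fun (a : Fin n → Fin q) (κ : Fin t → Fin q) =>
      Function.Injective κ ∧ ∀ l, κ l ∉ univ.image a)
    (fun a κ (ρ : Fin r → Fin q) => ∀ l, ρ l ∉ univ.image a ∪ univ.image κ) R _ _ _
    (fun a => card_inj_avoid _) (fun a κ h => ?_) hR
  rw [card_fun_avoid, card_union_of_disjoint, card_image_of_injective _ h.1]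
  · simp
  · rw [Finset.disjoint_right]
    intro x hx
    obtain ⟨l, -, rfl⟩ := mem_image.1 hx
    exact h.2 l

/-- colourings as quadruples -/
def colEquiv (n t r m q : ℕ) : (gr n t r m).Coloring (Fin q) ≃
    {p // Good (n := n) (t := t) (r := r) (q := q)
      (fun a (h : Fin m → Fin q) => ∀ l, h l ∉ univ.image a) p} where
  toFun c := ⟨(fun i => c (.inl (.inl i)), fun i => c (.inl (.inr i)), fun i => c (.inr (.inl i)),
      fun i => c (.inr (.inr i))), by
    refine ⟨⟨fun i j hij => ?_, fun l hl => ?_⟩, fun l hl => ?_, fun l hl => ?_⟩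
    · by_contra hne
      exact c.valid (v := .inl (.inr i)) (w := .inl (.inr j)) (by simp [gr, adj0, hne]) hij
    · obtain ⟨i, -, hi⟩ := mem_image.1 hl
      exact c.valid (v := .inl (.inl i)) (w := .inl (.inr l)) (by simp [gr, adj0]) hi
    · rcases mem_union.1 hl with hl | hl
      · obtain ⟨i, -, hi⟩ := mem_image.1 hl
        exact c.valid (v := .inl (.inl i)) (w := .inr (.inl l)) (by simp [gr, adj0]) hi
      · obtain ⟨i, -, hi⟩ := mem_image.1 hl
        exact c.valid (v := .inl (.inr i)) (w := .inr (.inl l)) (by simp [gr, adj0]) hi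
    · obtain ⟨i, -, hi⟩ := mem_image.1 hl
      exact c.valid (v := .inl (.inl i)) (w := .inr (.inr l)) (by simp [gr, adj0]) hi⟩
  invFun p := SimpleGraph.Coloring.mk
    (Sum.elim (Sum.elim p.1.1 p.1.2.1) (Sum.elim p.1.2.2.1 p.1.2.2.2)) (by
      obtain ⟨⟨a, κ, ρ, h⟩, ⟨h1, h2⟩, h3, h4⟩ := p
      simp only [mem_union, mem_image, mem_univ, true_and, not_or, not_exists] at h2 h3 h4
      have key : ∀ v w : Vx n t r m, v ≠ w → adj0 v w →
          (Sum.elim (Sum.elim a κ) (Sum.elim ρ h)) v ≠
            (Sum.elim (Sum.elim a κ) (Sum.elim ρ h)) w := by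
        rintro ((i | i) | (i | i)) ((j | j) | (j | j)) hne hadj <;>
          simp only [adj0] at hadj <;> simp only [Sum.elim_inl, Sum.elim_inr]
        · exact h2 j i
        · exact (h3 j).1 i
        · exact h4 j i
        · exact fun e => hne (by rw [h1 e])
        · exact (h3 j).2 i
      intro v w hvw
      rw [gr, SimpleGraph.fromRel_adj] at hvw
      rcases hvw with ⟨hne, hadj | hadj⟩
      · exact key v w hne hadj
      · exact (key w v hne.symm hadj).symm)
  left_inv c := by
    ext v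
    rcases v with ((i | i) | (i | i)) <;> rfl
  right_inv p := rfl

lemma card_coloring (n t r m q : ℕ) :
    Nat.card ((gr n t r m).Coloring (Fin q)) = ∑ k ∈ range (n + 1),
      surj n k * q.choose k * ((q - k).descFactorial t * (q - (k + t)) ^ r * (q - k) ^ m) := by
  rw [Nat.card_congr (colEquiv n t r m q)]
  exact card_good _ (fun k => (q - k) ^ m) (fun a => card_fun_avoid _)

/-- permuting the twin vertices -/
def twinAut (n t r m : ℕ) (σ : Equiv.Perm (Fin m)) : gr n t r m ≃g gr n t r m where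
  toEquiv := Equiv.sumCongr (Equiv.refl _) (Equiv.sumCongr (Equiv.refl _) σ)
  map_rel_iff' := by
    rintro ((i | i) | (i | i)) ((j | j) | (j | j)) <;> simp [gr, adj0]

/-- the group of all permutations of the twin vertices -/
def twinGroup (n t r m : ℕ) : Subgroup (gr n t r m ≃g gr n t r m) where
  carrier := Set.range (twinAut n t r m)
  one_mem' := ⟨1, by ext v; rcases v with ((i | i) | (i | i)) <;> rfl⟩
  mul_mem' := by
    rintro _ _ ⟨σ, rfl⟩ ⟨τ, rfl⟩
    exact ⟨σ * τ, by ext v; rcases v with ((i | i) | (i | i)) <;> rfl⟩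
  inv_mem' := by
    rintro _ ⟨σ, rfl⟩
    exact ⟨σ⁻¹, by ext v; rcases v with ((i | i) | (i | i)) <;> rfl⟩

/-- the multiset of values of a tuple -/
def toSym {α : Type} {m : ℕ} (h : Fin m → α) : Sym α m := ⟨univ.val.map h, by simp⟩

lemma toSym_eq_iff {α : Type} {m : ℕ} (h h' : Fin m → α) :
    toSym h = toSym h' ↔ ∃ σ : Equiv.Perm (Fin m), ∀ l, h' (σ l) = h l := by
  classical
  constructor
  · intro e
    have e' : univ.val.map h = univ.val.map h' := congrArg Subtype.val e
    have hc : ∀ a : α, Fintype.card {l // h l = a} = Fintype.card {l // h' l = a} := by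
      intro a
      have := congrArg (Multiset.count a) e'
      rw [Multiset.count_map, Multiset.count_map] at this
      rw [Fintype.card_subtype, Fintype.card_subtype]
      simpa [Finset.card, Finset.filter, eq_comm] using this
    exact ⟨Equiv.ofFiberEquiv (fun a => Fintype.equivOfCardEq (hc a)),
      fun l => Equiv.ofFiberEquiv_map _ l⟩
  · rintro ⟨σ, hσ⟩
    apply Subtype.ext
    change univ.val.map h = univ.val.map h'
    have : h = h' ∘ σ := funext fun l => (hσ l).symm
    rw [this, ← Multiset.map_map, Multiset.map_univ_val_equiv]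

lemma toSym_surj {α : Type} {m : ℕ} (μ : Sym α m) : ∃ h, toSym h = μ := by
  obtain ⟨s, hs⟩ := μ
  induction s using Quotient.inductionOn with
  | _ L =>
    have hL : L.length = m := hs
    subst hL
    refine ⟨L.get, Subtype.ext ?_⟩
    change univ.val.map L.get = (L : Multiset α)
    rw [Fin.univ_val_map, List.ofFn_get]

lemma mem_toSym {α : Type} {m : ℕ} (h : Fin m → α) (x : α) : x ∈ toSym h ↔ ∃ l, h l = x := by
  change x ∈ univ.val.map h ↔ _
  simp

lemma card_orbits (n t r m q : ℕ) :
    Nat.card (Quotient (orbitSetoid (gr n t r m) (twinGroup n t r m) q)) = ∑ k ∈ range (n + 1),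
      surj n k * q.choose k *
        ((q - k).descFactorial t * (q - (k + t)) ^ r * (q - k).multichoose m) := by
  rw [← card_good (fun a (μ : Sym (Fin q) m) => ∀ x ∈ μ, x ∉ univ.image a)
    (fun k => (q - k).multichoose m) (fun a => card_sym_avoid _)]
  let Φ : (gr n t r m).Coloring (Fin q) →
      {p // Good (n := n) (t := t) (r := r) (q := q)
        (fun a (μ : Sym (Fin q) m) => ∀ x ∈ μ, x ∉ univ.image a) p} := fun c =>
    ⟨((colEquiv n t r m q c).1.1, (colEquiv n t r m q c).1.2.1, (colEquiv n t r m q c).1.2.2.1,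
        toSym (colEquiv n t r m q c).1.2.2.2),
      (colEquiv n t r m q c).2.1, (colEquiv n t r m q c).2.2.1, fun x hx => by
        obtain ⟨l, rfl⟩ := (mem_toSym _ _).1 hx
        exact (colEquiv n t r m q c).2.2.2 l⟩
  have hsurj : Function.Surjective Φ := by
    rintro ⟨⟨a, κ, ρ, μ⟩, h1, h2, h3⟩
    obtain ⟨h, rfl⟩ := toSym_surj μ
    refine ⟨(colEquiv n t r m q).symm ⟨(a, κ, ρ, h), h1, h2,
      fun l => h3 _ ((mem_toSym _ _).2 ⟨l, rfl⟩)⟩, ?_⟩
    simp [Φ]
  have hker : orbitSetoid (gr n t r m) (twinGroup n t r m) q = Setoid.ker Φ := by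
    ext c c'
    rw [Setoid.ker_def, Subtype.ext_iff]
    simp only [Φ, Prod.mk.injEq, toSym_eq_iff]
    constructor
    · rintro ⟨_, ⟨σ, rfl⟩, hσ⟩
      exact ⟨funext fun i => (hσ (.inl (.inl i))).symm, funext fun i => (hσ (.inl (.inr i))).symm,
        funext fun i => (hσ (.inr (.inl i))).symm, σ, fun l => hσ (.inr (.inr l))⟩
    · rintro ⟨h1, h2, h3, σ, hσ⟩
      refine ⟨twinAut n t r m σ, ⟨σ, rfl⟩, ?_⟩
      rintro ((i | i) | (i | i))
      · exact (congrFun h1 i).symm
      · exact (congrFun h2 i).symm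
      · exact (congrFun h3 i).symm
      · exact hσ i
  rw [hker]
  exact Nat.card_congr (Setoid.quotientKerEquivOfSurjective Φ hsurj)

lemma surj_zero (n : ℕ) : surj (n + 1) 0 = 0 := by
  have : IsEmpty {a : Fin (n + 1) → Fin 0 // Function.Surjective a} :=
    ⟨fun a => (a.1 0).elim0⟩
  exact Nat.card_of_isEmpty

lemma surj_one_pos (n : ℕ) : 0 < surj (n + 1) 1 := by
  have : Nonempty {a : Fin (n + 1) → Fin 1 // Function.Surjective a} :=
    ⟨⟨fun _ => 0, fun j => ⟨0, Subsingleton.elim _ _⟩⟩⟩
  exact Nat.card_pos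

lemma surj_self_pos (n : ℕ) : 0 < surj n n := by
  have : Nonempty {a : Fin n → Fin n // Function.Surjective a} := ⟨⟨id, Function.surjective_id⟩⟩
  exact Nat.card_pos

end Pool.Agent.Lib.MP_fefe6a_co
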