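import Mathlib
import Pool.Agent.Lib.MP_fefe6a_co.Count

namespace Pool.Agent.Lib.MP_fefe6a_co

open Finset Polynomial

/-- falling factorial -/
noncomputable def dsc (x : ℝ) (k : ℕ) : ℝ := ∏ i ∈ range k, (x - i)

/-- rising factorial -/
noncomputable def asc (y : ℝ) (m : ℕ) : ℝ := ∏ i ∈ range m, (y + i)

/-- Stirling coefficient -/
noncomputable def cc (n k : ℕ) : ℝ := (surj n k : ℝ) / (k.factorial : ℝ)

lemma dsc_nat (q k : ℕ) : dsc q k = (q.descFactorial k : ℝ) := by
  induction k with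
  | zero => simp [dsc]
  | succ k ih =>
    rw [dsc, prod_range_succ, ← dsc, ih, Nat.descFactorial_succ]
    rcases le_or_gt k q with h | h
    · push_cast [Nat.cast_sub h]; ring
    · simp [Nat.descFactorial_eq_zero_iff_lt.2 h]

lemma asc_nat (y m : ℕ) : asc y m = (m.factorial : ℝ) * (y.multichoose m : ℝ) := by
  have : asc y m = (y.ascFactorial m : ℝ) := by
    induction m with
    | zero => simp [asc]
    | succ m ih =>
      rw [asc, prod_range_succ, ← asc, ih, Nat.ascFactorial_succ]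
      push_cast; ring
  rw [this, Nat.ascFactorial_eq_factorial_mul_choose', Nat.multichoose_eq]
  push_cast; ring

lemma term_cast (n t q k w : ℕ) :
    ((surj n k * q.choose k * ((q - k).descFactorial t * w) : ℕ) : ℝ)
      = cc n k * dsc q (k + t) * w := by
  have hk : (k.factorial : ℝ) ≠ 0 := by positivity
  have h1 : (q - k).descFactorial t * q.descFactorial k = q.descFactorial (k + t) := by
    have := Nat.descFactorial_mul_descFactorial (n := q) (k := k) (m := k + t) (by omega)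
    simpa using this
  rw [dsc_nat, ← h1, Nat.descFactorial_eq_factorial_mul_choose q k, cc]
  push_cast
  field_simp

/-- chromatic polynomial of `gr n t r m` -/
noncomputable def Ppoly (n t r m : ℕ) : ℝ[X] :=
  ∑ k ∈ range (n + 1), C (cc n k) * (∏ i ∈ range (k + t), (X - C (i : ℝ))) *
    ((X - C ((k : ℝ) + t)) ^ r * (X - C (k : ℝ)) ^ m)

/-- orbital chromatic polynomial of `gr n t r m` under the twin group -/
noncomputable def Qpoly (n t r m : ℕ) : ℝ[X] :=
  ∑ k ∈ range (n + 1), C (cc n k) * (∏ i ∈ range (k + t), (X - C (i : ℝ))) *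
    ((X - C ((k : ℝ) + t)) ^ r *
      (C ((m.factorial : ℝ)⁻¹) * ∏ i ∈ range m, (X - C (k : ℝ) + C (i : ℝ))))

lemma eval_Ppoly (n t r m : ℕ) (x : ℝ) : (Ppoly n t r m).eval x =
    ∑ k ∈ range (n + 1), cc n k * dsc x (k + t) * ((x - (k + t)) ^ r * (x - k) ^ m) := by
  simp [Ppoly, eval_finsetSum, eval_prod, dsc]

lemma eval_Qpoly (n t r m : ℕ) (x : ℝ) : (Qpoly n t r m).eval x =
    ∑ k ∈ range (n + 1), cc n k * dsc x (k + t) *
      ((x - (k + t)) ^ r * ((m.factorial : ℝ)⁻¹ * asc (x - k) m)) := by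
  simp [Qpoly, eval_finsetSum, eval_prod, dsc, asc]

lemma isChromatic (n t r m : ℕ) : IsChromaticPoly (gr n t r m) (Ppoly n t r m) := by
  intro q _
  rw [card_coloring, eval_Ppoly, Nat.cast_sum]
  refine sum_congr rfl fun k _ => ?_
  rw [mul_assoc ((q - k).descFactorial t), term_cast]
  rcases le_or_gt (k + t) q with h | h
  · have h' : k ≤ q := by omega
    push_cast [Nat.cast_sub h, Nat.cast_sub h']
    ring
  · simp [dsc_nat, ← Nat.cast_add, Nat.descFactorial_eq_zero_iff_lt.2 h]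

lemma isOrbital (n t r m : ℕ) :
    IsOrbitalChromaticPoly (gr n t r m) (twinGroup n t r m) (Qpoly n t r m) := by
  intro q _
  rw [card_orbits, eval_Qpoly, Nat.cast_sum]
  refine sum_congr rfl fun k _ => ?_
  rw [mul_assoc ((q - k).descFactorial t), term_cast]
  rcases le_or_gt (k + t) q with h | h
  · have h' : k ≤ q := by omega
    have hm : (m.factorial : ℝ) ≠ 0 := by positivity
    rw [← Nat.cast_sub h', asc_nat]
    push_cast [Nat.cast_sub h]
    field_simp
  · simp [dsc_nat, ← Nat.cast_add, Nat.descFactorial_eq_zero_iff_lt.2 h]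

lemma cc_nonneg (n k : ℕ) : 0 ≤ cc n k := by unfold cc; positivity

lemma cc_zero (n : ℕ) : cc (n + 1) 0 = 0 := by simp [cc, surj_zero]

lemma one_le_cc_one (n : ℕ) : 1 ≤ cc (n + 1) 1 := by
  have := surj_one_pos n
  simp only [cc, Nat.factorial_one, Nat.cast_one, div_one]
  exact_mod_cast this

lemma cc_self_pos (n : ℕ) : 0 < cc n n := by
  have := surj_self_pos n
  unfold cc; positivity

lemma abs_dsc_le {x B : ℝ} {k K : ℕ} (hx0 : 0 ≤ x) (hxB : x ≤ B) (hB : 1 ≤ B) (hk : k ≤ K)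
    (hK : (K : ℝ) ≤ B) : |dsc x k| ≤ B ^ K := by
  rw [dsc, Finset.abs_prod]
  calc ∏ i ∈ range k, |x - i| ≤ ∏ _i ∈ range k, B := by
        refine prod_le_prod (fun _ _ => abs_nonneg _) fun i hi => ?_
        have h1 : (i : ℝ) ≤ K := by exact_mod_cast (le_of_lt (mem_range.1 hi)).trans hk
        have h2 : (0 : ℝ) ≤ i := by positivity
        rw [abs_le]; constructor <;> linarith
    _ = B ^ k := by simp
    _ ≤ B ^ K := pow_le_pow_right₀ hB hk

/-- positivity of the chromatic polynomial from `t + 2` on -/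
lemma P_pos (t : ℕ) : ∃ j : ℕ, 0 < j ∧ ∀ r : ℕ, ∀ x : ℝ, (t : ℝ) + 2 ≤ x →
    0 < (Ppoly (2 * t + 1) t r (j * (r + 1))).eval x := by
  set B : ℝ := 3 * t + 2 with hBdef
  have ht : (0 : ℝ) ≤ t := by positivity
  have hB : 1 ≤ B := by rw [hBdef]; linarith
  have hB0 : 0 < B := by linarith
  set E : ℝ := ∑ k ∈ range (2 * t + 1 + 1), cc (2 * t + 1) k * B ^ (3 * t + 1) with hEdef
  have hE : 0 ≤ E := sum_nonneg fun k _ => mul_nonneg (cc_nonneg _ _) (by positivity)
  obtain ⟨j0, hj0⟩ := pow_unbounded_of_one_lt (B * (E + 1)) (y := 1 + B⁻¹)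
    (by have := inv_pos.2 hB0; linarith)
  have hBi : 0 < B⁻¹ := inv_pos.2 hB0
  refine ⟨j0 + 1, by omega, fun r x hx => ?_⟩
  set m := (j0 + 1) * (r + 1) with hm
  have hj : B * (E + 1) < (1 + B⁻¹) ^ (j0 + 1) :=
    hj0.trans_le (pow_le_pow_right₀ (by linarith) (by omega))
  rw [eval_Ppoly]
  have h1mem : 1 ∈ range (2 * t + 1 + 1) := by simp
  rw [← add_sum_erase _ _ h1mem]
  have hmain : (x - 1) ^ m ≤ cc (2 * t + 1) 1 * dsc x (1 + t) *
      ((x - ((1 : ℕ) + t)) ^ r * (x - (1 : ℕ)) ^ m) := by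
    have a1 := one_le_cc_one (2 * t)
    have a2 : 1 ≤ dsc x (1 + t) := by
      rw [dsc]
      calc (1 : ℝ) = ∏ _i ∈ range (1 + t), (1 : ℝ) := by simp
        _ ≤ _ := by
          refine prod_le_prod (fun _ _ => zero_le_one) fun i hi => ?_
          have : (i : ℝ) ≤ t := by
            have := mem_range.1 hi
            exact_mod_cast (by omega : i ≤ t)
          linarith
    have a3 : 1 ≤ (x - ((1 : ℕ) + t)) ^ r := one_le_pow₀ (by push_cast; linarith)
    have a4 : 0 ≤ (x - 1) ^ m := pow_nonneg (by linarith) _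
    push_cast at a3 ⊢
    calc (x - 1) ^ m = 1 * 1 * (1 * (x - 1) ^ m) := by ring
      _ ≤ _ := by gcongr
  have hpos : 0 < (x - 1) ^ m := pow_pos (by linarith) _
  rcases le_or_gt B x with hxB | hxB
  · have : 0 ≤ ∑ k ∈ (range (2 * t + 1 + 1)).erase 1,
        cc (2 * t + 1) k * dsc x (k + t) * ((x - (k + t)) ^ r * (x - k) ^ m) := by
      refine sum_nonneg fun k hk => ?_
      have hk' : (k : ℝ) ≤ 2 * t + 1 := by
        have := mem_range.1 (mem_of_mem_erase hk)
        exact_mod_cast (by omega : k ≤ 2 * t + 1)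
      have b1 : 0 ≤ dsc x (k + t) := by
        refine prod_nonneg fun i hi => ?_
        have : (i : ℝ) ≤ k + t := by
          have := mem_range.1 hi
          exact_mod_cast (by omega : i ≤ k + t)
        linarith
      have b2 : 0 ≤ x - (k + t) := by linarith
      have b3 : 0 ≤ x - k := by linarith
      have := cc_nonneg (2 * t + 1) k
      positivity
    linarith
  · have hx2 : 0 ≤ x - 2 := by linarith
    have hbound : |∑ k ∈ (range (2 * t + 1 + 1)).erase 1,
        cc (2 * t + 1) k * dsc x (k + t) * ((x - (k + t)) ^ r * (x - k) ^ m)|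
        ≤ E * (B ^ r * (x - 2) ^ m) := by
      refine (abs_sum_le_sum_abs _ _).trans ?_
      rw [hEdef, sum_mul]
      refine le_trans (sum_le_sum (g := fun k => cc (2 * t + 1) k * B ^ (3 * t + 1) *
        (B ^ r * (x - 2) ^ m)) fun k hk => ?_) ?_
      · have hk1 : k ≠ 1 := ne_of_mem_erase hk
        have hk2 : k ≤ 2 * t + 1 := by
          have := mem_range.1 (mem_of_mem_erase hk)
          omega
        rcases Nat.eq_zero_or_pos k with rfl | hk0
        · simp [cc_zero]
        have hk3 : (2 : ℝ) ≤ k := by exact_mod_cast (by omega : 2 ≤ k)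
        have hk4 : (k : ℝ) ≤ 2 * t + 1 := by exact_mod_cast hk2
        have c0 := cc_nonneg (2 * t + 1) k
        have c1 : |dsc x (k + t)| ≤ B ^ (3 * t + 1) :=
          abs_dsc_le (by linarith) hxB.le hB (by omega) (by push_cast; linarith)
        have c2 : |x - (k + t)| ≤ B := by rw [abs_le]; constructor <;> linarith
        have c3 : |x - k| ≤ x - 2 := by rw [abs_le]; constructor <;> linarith
        rw [abs_mul, abs_mul, abs_mul, abs_pow, abs_pow, abs_of_nonneg c0]
        gcongr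
      · refine sum_le_sum_of_subset_of_nonneg (erase_subset _ _) fun k _ _ => ?_
        have := cc_nonneg (2 * t + 1) k
        positivity
    have hlt : E * (B ^ r * (x - 2) ^ m) < (x - 1) ^ m := by
      have d1 : (1 + B⁻¹) * (x - 2) ≤ x - 1 := by
        have : B⁻¹ * (x - 2) ≤ 1 := by
          rw [inv_mul_le_iff₀ hB0]; linarith
        linarith
      have d2 : ((1 + B⁻¹) * (x - 2)) ^ m ≤ (x - 1) ^ m :=
        pow_le_pow_left₀ (by positivity) d1 m
      have d3 : E * B ^ r < (1 + B⁻¹) ^ m := by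
        rw [hm, pow_mul]
        have e1 : (B * (E + 1)) ^ (r + 1) ≤ ((1 + B⁻¹) ^ (j0 + 1)) ^ (r + 1) :=
          pow_le_pow_left₀ (by positivity) hj.le _
        have e2 : E * B ^ r < (B * (E + 1)) ^ (r + 1) := by
          rw [mul_pow, pow_succ, pow_succ]
          have f1 : 1 ≤ (E + 1) ^ r := one_le_pow₀ (by linarith)
          have f2 : 0 < B ^ r := by positivity
          calc E * B ^ r < (E + 1) * B ^ r := by nlinarith
            _ = B ^ r * 1 * (1 * (E + 1)) := by ring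
            _ ≤ _ := by gcongr
        linarith
      rcases hx2.eq_or_lt with h0 | h0
      · have hm0 : m ≠ 0 := by rw [hm]; positivity
        rw [← h0, zero_pow hm0]
        simpa using hpos
      · have d4 : 0 < (x - 2) ^ m := pow_pos h0 _
        rw [mul_pow] at d2
        calc E * (B ^ r * (x - 2) ^ m) = (E * B ^ r) * (x - 2) ^ m := by ring
          _ < (1 + B⁻¹) ^ m * (x - 2) ^ m := by gcongr
          _ ≤ _ := d2
    have := (abs_le.1 hbound).1
    linarith

lemma asc_shift (z : ℝ) (m : ℕ) : asc (z + 1) m * z = asc z m * (z + m) := by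
  induction m with
  | zero => simp [asc]
  | succ m ih =>
    unfold asc at ih ⊢
    rw [prod_range_succ, prod_range_succ]
    push_cast
    linear_combination (z + 1 + m) * ih

lemma abs_asc_le (m n j : ℕ) (hj : j ≤ n) :
    |asc (-1 / 2 + j) m| ≤ (2 * ((m : ℝ) + n + 1)) ^ j * |asc (-1 / 2) m| := by
  induction j with
  | zero => simp
  | succ j ih =>
    have ih' := ih (by omega)
    have h := asc_shift (-1 / 2 + j) m
    have hjn : (j : ℝ) + 1 ≤ n := by exact_mod_cast hj
    have hj0 : (0 : ℝ) ≤ j := by positivity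
    have hm0 : (0 : ℝ) ≤ m := by positivity
    have hz : (1 / 2 : ℝ) ≤ |(-1 / 2 + j : ℝ)| := by
      rcases Nat.eq_zero_or_pos j with rfl | h0
      · norm_num [abs_div]
      · have : (1 : ℝ) ≤ j := by exact_mod_cast h0
        rw [abs_of_nonneg (by linarith)]; linarith
    have hz2 : |(-1 / 2 + j + m : ℝ)| ≤ m + n + 1 := by
      rw [abs_le]; constructor <;> linarith
    have h2 : |asc (-1 / 2 + j + 1) m| * |(-1 / 2 + j : ℝ)|
        = |asc (-1 / 2 + j) m| * |(-1 / 2 + j + m : ℝ)| := by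
      rw [← abs_mul, ← abs_mul, h]
    have h3 : |asc (-1 / 2 + j + 1) m| ≤ 2 * ((m : ℝ) + n + 1) * |asc (-1 / 2 + j) m| := by
      have a0 := abs_nonneg (asc (-1 / 2 + j + 1) m)
      have a1 := abs_nonneg (asc (-1 / 2 + j) m)
      have : |asc (-1 / 2 + j + 1) m| * (1 / 2) ≤ |asc (-1 / 2 + j) m| * (m + n + 1) :=
        calc _ ≤ |asc (-1 / 2 + j + 1) m| * |(-1 / 2 + j : ℝ)| := by gcongr
          _ = _ := h2
          _ ≤ _ := by gcongr
      linarith
    push_cast
    rw [← add_assoc, pow_succ]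
    calc _ ≤ 2 * ((m : ℝ) + n + 1) * |asc (-1 / 2 + j) m| := h3
      _ ≤ 2 * ((m : ℝ) + n + 1) * ((2 * ((m : ℝ) + n + 1)) ^ j * |asc (-1 / 2) m|) := by gcongr
      _ = _ := by ring

lemma asc_neg (m : ℕ) : asc (-1 / 2) (m + 1) < 0 := by
  rw [asc, prod_range_succ']
  have : 0 < ∏ i ∈ range m, ((-1 / 2 : ℝ) + ((i + 1 : ℕ) : ℝ)) := by
    refine prod_pos fun i _ => ?_
    have : (0 : ℝ) ≤ i := by positivity
    push_cast; linarith
  nlinarith

lemma dsc_half_ne (a k : ℕ) : dsc ((a : ℝ) + 1 / 2) k ≠ 0 := by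
  refine prod_ne_zero_iff.2 fun i _ h => ?_
  have h2 : ((2 * a + 1 : ℕ) : ℝ) = ((2 * i : ℕ) : ℝ) := by push_cast; linarith
  have := Nat.cast_injective h2
  omega

/-- negativity of the orbital polynomial at `2t + 1/2` -/
lemma Q_neg (t j : ℕ) (ht : 0 < t) (hj : 0 < j) : ∃ r : ℕ,
    (Qpoly (2 * t + 1) t r (j * (r + 1))).eval (((2 * t : ℕ) : ℝ) + 1 / 2) < 0 := by
  set x : ℝ := ((2 * t : ℕ) : ℝ) + 1 / 2 with hx
  have ht1 : (1 : ℝ) ≤ t := by exact_mod_cast ht
  set D : ℝ := cc (2 * t + 1) (2 * t + 1) * dsc x (2 * t + 1 + t) with hD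
  have hD0 : D ≠ 0 := mul_ne_zero (cc_self_pos _).ne' (dsc_half_ne _ _)
  set E : ℝ := ∑ k ∈ range (2 * t + 1), cc (2 * t + 1) k * |dsc x (k + t)| with hE
  have hE0 : 0 ≤ E := sum_nonneg fun k _ => mul_nonneg (cc_nonneg _ _) (abs_nonneg _)
  set ρ : ℝ := (t - 1 / 2) / (t + 1 / 2) with hρ
  have hρ0 : 0 < ρ := div_pos (by linarith) (by linarith)
  have hρ1 : ρ < 1 := by rw [hρ, div_lt_one (by linarith)]; linarith
  set K : ℝ := 2 * (2 * j + 2 * t + 2) with hK
  have hlim : Filter.Tendsto (fun r : ℕ => E * K ^ (2 * t + 1) * ((r : ℝ) ^ (2 * t + 1) * ρ ^ r))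
      Filter.atTop (nhds 0) := by
    have := (tendsto_pow_const_mul_const_pow_of_abs_lt_one (2 * t + 1)
      (r := ρ) (by rw [abs_of_pos hρ0]; exact hρ1)).const_mul (E * K ^ (2 * t + 1))
    simpa using this
  obtain ⟨R, hR⟩ := Filter.eventually_atTop.1 (hlim.eventually (gt_mem_nhds (abs_pos.2 hD0)))
  have key : ∀ r : ℕ, R + 1 ≤ r → 0 < D * (-1) ^ r →
      (Qpoly (2 * t + 1) t r (j * (r + 1))).eval x < 0 := by
    intro r hr hsign
    have hr1 : (1 : ℝ) ≤ r := by exact_mod_cast (by omega : 1 ≤ r)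
    obtain ⟨m', hm'⟩ : ∃ m', j * (r + 1) = m' + 1 := ⟨j * (r + 1) - 1, by
      have : 0 < j * (r + 1) := by positivity
      omega⟩
    have hA := asc_neg m'
    rw [← hm'] at hA
    set m := j * (r + 1) with hm
    set A := asc (-1 / 2) m with hAdef
    have hF : (0 : ℝ) < (m.factorial : ℝ)⁻¹ := by positivity
    rw [eval_Qpoly, sum_range_succ]
    have e1 : x - ((2 * t + 1 : ℕ) + t) = -1 * (t + 1 / 2) := by rw [hx]; push_cast; ring
    have e2 : x - ((2 * t + 1 : ℕ)) = -1 / 2 := by rw [hx]; push_cast; ring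
    rw [e1, e2, ← hD, ← hAdef, mul_pow]
    have hDabs : D * (-1) ^ r = |D| := by
      rw [← abs_of_pos hsign, abs_mul, abs_pow]; simp
    have hmain : D * ((-1) ^ r * (t + 1 / 2 : ℝ) ^ r * ((m.factorial : ℝ)⁻¹ * A))
        = -(|D| * (t + 1 / 2 : ℝ) ^ r * ((m.factorial : ℝ)⁻¹ * |A|)) := by
      rw [← hDabs, abs_of_neg hA]; ring
    rw [hmain]
    have hKr : 2 * ((m : ℝ) + (2 * t + 1 : ℕ) + 1) ≤ K * r := by
      rw [hm, hK]; push_cast
      have : (0 : ℝ) ≤ j := by positivity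
      nlinarith
    have hKr1 : 1 ≤ K * r := by
      refine le_trans ?_ hKr
      have : (0 : ℝ) ≤ m := by positivity
      push_cast; linarith
    have hbound : ∑ k ∈ range (2 * t + 1), cc (2 * t + 1) k * dsc x (k + t) *
        ((x - (k + t)) ^ r * ((m.factorial : ℝ)⁻¹ * asc (x - k) m))
        ≤ E * ((t - 1 / 2 : ℝ) ^ r * ((m.factorial : ℝ)⁻¹ * ((K * r) ^ (2 * t + 1) * |A|))) := by
      rw [hE, sum_mul]
      refine sum_le_sum fun k hk => (le_abs_self _).trans ?_
      have hk2 : k ≤ 2 * t := by have := mem_range.1 hk; omega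
      rcases Nat.eq_zero_or_pos k with rfl | hk0
      · simp [cc_zero]
      have hk3 : (1 : ℝ) ≤ k := by exact_mod_cast hk0
      have hk4 : (k : ℝ) ≤ 2 * t := by exact_mod_cast hk2
      have c0 := cc_nonneg (2 * t + 1) k
      have c2 : |x - (k + t)| ≤ t - 1 / 2 := by
        rw [hx, abs_le]; push_cast; constructor <;> linarith
      have c3 : |asc (x - k) m| ≤ (K * r) ^ (2 * t + 1) * |A| := by
        have e3 : x - k = -1 / 2 + ((2 * t + 1 - k : ℕ) : ℝ) := by
          rw [hx, Nat.cast_sub (by omega)]; push_cast; ring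
        rw [e3]
        refine (abs_asc_le m (2 * t + 1) (2 * t + 1 - k) (by omega)).trans ?_
        refine mul_le_mul_of_nonneg_right ?_ (abs_nonneg _)
        calc _ ≤ (K * r) ^ (2 * t + 1 - k) := pow_le_pow_left₀ (by positivity) hKr _
          _ ≤ _ := pow_le_pow_right₀ hKr1 (by omega)
      rw [abs_mul, abs_mul, abs_mul, abs_mul, abs_pow, abs_of_nonneg c0, abs_of_pos hF]
      have c4 : (0 : ℝ) ≤ t - 1 / 2 := by linarith
      gcongr
    have hlt := hR r (by omega)
    have hpw : (t - 1 / 2 : ℝ) ^ r = ρ ^ r * (t + 1 / 2) ^ r := by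
      rw [← mul_pow, hρ, div_mul_cancel₀ _ (by linarith)]
    have hG : 0 < (t + 1 / 2 : ℝ) ^ r * ((m.factorial : ℝ)⁻¹ * |A|) := by
      have := abs_pos.2 hA.ne
      positivity
    have : E * ((t - 1 / 2 : ℝ) ^ r * ((m.factorial : ℝ)⁻¹ * ((K * r) ^ (2 * t + 1) * |A|)))
        = (E * K ^ (2 * t + 1) * ((r : ℝ) ^ (2 * t + 1) * ρ ^ r)) *
          ((t + 1 / 2 : ℝ) ^ r * ((m.factorial : ℝ)⁻¹ * |A|)) := by
      rw [hpw, mul_pow]; ring
    rw [this] at hbound
    have := mul_lt_mul_of_pos_right hlt hG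
    linarith
  rcases lt_or_gt_of_ne hD0 with hneg | hpos
  · refine ⟨2 * R + 1, key _ (by omega) ?_⟩
    rw [pow_succ, pow_mul]; simpa using hneg
  · refine ⟨2 * (R + 1), key _ (by omega) ?_⟩
    rw [pow_mul]; simpa using hpos

end Pool.Agent.Lib.MP_fefe6a_co
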