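import Pool.Agent.Lib.MP_fefe6a_co.Poly

/-!
A graph with `k` terminals, two twin vertices joined to all terminals, and between every ordered
pair of terminals `a` paths of length three and `b` paths of length four: its proper colourings
and their orbits under the transposition of the twins.
-/

namespace Pool.Agent.Lib.MP_fefe6a_co.Two

open Finset

/-- index of a path: its two ends and a copy number -/
abbrev I (k a : ℕ) : Type := Fin k × Fin k × Fin a

/-- vertices: terminals, twins, inner vertices of the paths -/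
inductive W (k a b : ℕ) : Type
  | u (i : Fin k)
  | w (t : Fin 2)
  | x0 (p : I k a)
  | x1 (p : I k a)
  | y0 (p : I k b)
  | y1 (p : I k b)
  | y2 (p : I k b)

variable {k a b q : ℕ}

instance : Finite (W k a b) :=
  Finite.of_surjective
    (Sum.elim W.u (Sum.elim W.w (Sum.elim W.x0 (Sum.elim W.x1 (Sum.elim W.y0
      (Sum.elim W.y1 W.y2)))))) (by
      intro v
      cases v
      exacts [⟨.inl _, rfl⟩, ⟨.inr (.inl _), rfl⟩, ⟨.inr (.inr (.inl _)), rfl⟩,
        ⟨.inr (.inr (.inr (.inl _))), rfl⟩, ⟨.inr (.inr (.inr (.inr (.inl _)))), rfl⟩,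
        ⟨.inr (.inr (.inr (.inr (.inr (.inl _))))), rfl⟩,
        ⟨.inr (.inr (.inr (.inr (.inr (.inr _))))), rfl⟩])

/-- one-sided adjacency -/
def adj1 : W k a b → W k a b → Prop
  | .u _, .w _ => True
  | .u i, .x0 p => p.1 = i
  | .x0 p, .x1 p' => p = p'
  | .u i, .x1 p => p.2.1 = i
  | .u i, .y0 p => p.1 = i
  | .y0 p, .y1 p' => p = p'
  | .y1 p, .y2 p' => p = p'
  | .u i, .y2 p => p.2.1 = i
  | _, _ => False

/-- the graph -/
def gr (k a b : ℕ) : SimpleGraph (W k a b) := SimpleGraph.fromRel adj1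

theorem connected (hk : 0 < k) : (gr k a b).Connected := by
  have hu : ∀ i, (gr k a b).Reachable (.w 0) (.u i) := fun i =>
    SimpleGraph.Adj.reachable (by simp [gr, adj1])
  have st : ∀ {v z : W k a b}, (gr k a b).Reachable (.w 0) v → (gr k a b).Adj v z →
      (gr k a b).Reachable (.w 0) z := fun h h' => h.trans h'.reachable
  have hy : ∀ p, (gr k a b).Reachable (.w 0) (.y0 p) := fun p =>
    st (hu p.1) (by simp [gr, adj1])
  rw [SimpleGraph.connected_iff_exists_forall_reachable]
  refine ⟨.w 0, fun v => ?_⟩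
  cases v with
  | u i => exact hu i
  | w t => exact st (hu ⟨0, hk⟩) (by simp [gr, adj1])
  | x0 p => exact st (hu p.1) (by simp [gr, adj1])
  | x1 p => exact st (hu p.2.1) (by simp [gr, adj1])
  | y0 p => exact hy p
  | y1 p => exact st (hy p) (by simp [gr, adj1])
  | y2 p => exact st (hu p.2.1) (by simp [gr, adj1])

/-- proper colourings of the inner vertices of a path of length three -/
def E3 (s t : Fin q) (z : Fin q × Fin q) : Prop := s ≠ z.1 ∧ z.1 ≠ z.2 ∧ z.2 ≠ t

/-- proper colourings of the inner vertices of a path of length four -/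
def E4 (s t : Fin q) (z : Fin q × Fin q × Fin q) : Prop :=
  s ≠ z.1 ∧ z.1 ≠ z.2.1 ∧ z.2.1 ≠ z.2.2 ∧ z.2.2 ≠ t

/-- colourings of all the inner vertices -/
abbrev B (k a b q : ℕ) : Type := (I k a → Fin q × Fin q) × (I k b → Fin q × Fin q × Fin q)

/-- properness on all the paths -/
def Ok (c : Fin k → Fin q) (β : B k a b q) : Prop :=
  (∀ p, E3 (c p.1) (c p.2.1) (β.1 p)) ∧ ∀ p, E4 (c p.1) (c p.2.1) (β.2 p)

/-- the colouring with the given parts -/
def glue (c : Fin k → Fin q) (h : Fin 2 → Fin q) (β : B k a b q) : W k a b → Fin q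
  | .u i => c i
  | .w t => h t
  | .x0 p => (β.1 p).1
  | .x1 p => (β.1 p).2
  | .y0 p => (β.2 p).1
  | .y1 p => (β.2 p).2.1
  | .y2 p => (β.2 p).2.2

/-- colourings as triples -/
def colEq (k a b q : ℕ) : (gr k a b).Coloring (Fin q) ≃
    {p : (Fin k → Fin q) × (Fin 2 → Fin q) × B k a b q //
      (∀ l, p.2.1 l ∉ univ.image p.1) ∧ Ok p.1 p.2.2} where
  toFun c := ⟨(fun i => c (.u i), fun t => c (.w t), fun p => (c (.x0 p), c (.x1 p)),
      fun p => (c (.y0 p), c (.y1 p), c (.y2 p))), by
    refine ⟨fun l hl => ?_, fun p => ⟨?_, ?_, ?_⟩, fun p => ⟨?_, ?_, ?_, ?_⟩⟩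
    · obtain ⟨i, -, hi⟩ := mem_image.1 hl
      exact c.valid (v := .u i) (w := .w l) (by simp [gr, adj1]) hi
    all_goals exact c.valid (by simp [gr, adj1])⟩
  invFun p := SimpleGraph.Coloring.mk (glue p.1.1 p.1.2.1 p.1.2.2) (by
      obtain ⟨⟨c, h, β⟩, h1, h2, h3⟩ := p
      simp only [mem_image, mem_univ, true_and, not_exists] at h1
      have key : ∀ v z : W k a b, adj1 v z → glue c h β v ≠ glue c h β z := by
        intro v z hadj
        cases v <;> cases z <;> simp only [adj1] at hadj <;> simp only [glue]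
        · exact h1 _ _
        · exact hadj ▸ (h2 _).1
        · exact hadj ▸ (h2 _).2.2.symm
        · exact hadj ▸ (h3 _).1
        · exact hadj ▸ (h3 _).2.2.2.symm
        · exact hadj ▸ (h2 _).2.1
        · exact hadj ▸ (h3 _).2.1
        · exact hadj ▸ (h3 _).2.2.1
      intro v z hvz
      rw [gr, SimpleGraph.fromRel_adj] at hvz
      rcases hvz with ⟨-, hadj | hadj⟩
      · exact key v z hadj
      · exact (key z v hadj).symm)
  left_inv c := by
    ext v
    cases v <;> rfl
  right_inv p := rfl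

theorem card_three {A D C : Type} [Fintype A] [Finite D] [Finite C]
    (R : A → D → Prop) (Q : A → C → Prop) :
    Nat.card {p : A × D × C // R p.1 p.2.1 ∧ Q p.1 p.2.2}
      = ∑ x, Nat.card {d // R x d} * Nat.card {c // Q x c} := by
  have e : {p : A × D × C // R p.1 p.2.1 ∧ Q p.1 p.2.2} ≃ Σ x : A, {d // R x d} × {c // Q x c} :=
    { toFun := fun p => ⟨p.1.1, ⟨p.1.2.1, p.2.1⟩, ⟨p.1.2.2, p.2.2⟩⟩
      invFun := fun s => ⟨(s.1, s.2.1.1, s.2.2.1), s.2.1.2, s.2.2.2⟩
      left_inv := fun p => rfl
      right_inv := fun s => rfl }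
  rw [Nat.card_congr e, Nat.card_sigma]
  exact Finset.sum_congr rfl fun x _ => Nat.card_prod _ _

theorem card_col (k a b q : ℕ) : Nat.card ((gr k a b).Coloring (Fin q)) =
    ∑ c : Fin k → Fin q, (q - (univ.image c).card) ^ 2 * Nat.card {β : B k a b q // Ok c β} := by
  rw [Nat.card_congr (colEq k a b q),
    card_three (fun (c : Fin k → Fin q) (h : Fin 2 → Fin q) => ∀ l, h l ∉ univ.image c) Ok]
  exact sum_congr rfl fun c _ => by rw [card_fun_avoid]

/-- the permutation of the vertices given by a permutation of the twins -/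
def mv (σ : Equiv.Perm (Fin 2)) : W k a b → W k a b
  | .w t => .w (σ t)
  | v => v

/-- permuting the twins -/
def aut (k a b : ℕ) (σ : Equiv.Perm (Fin 2)) : gr k a b ≃g gr k a b where
  toFun := mv σ
  invFun := mv σ.symm
  left_inv v := by cases v <;> simp [mv]
  right_inv v := by cases v <;> simp [mv]
  map_rel_iff' := by
    intro v z
    cases v <;> cases z <;> simp [gr, adj1, mv]

/-- the group of order two -/
def grp (k a b : ℕ) : Subgroup (gr k a b ≃g gr k a b) where
  carrier := Set.range (aut k a b)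
  one_mem' := ⟨1, by ext v; cases v <;> rfl⟩
  mul_mem' := by
    rintro _ _ ⟨σ, rfl⟩ ⟨τ, rfl⟩
    exact ⟨σ * τ, by ext v; cases v <;> rfl⟩
  inv_mem' := by
    rintro _ ⟨σ, rfl⟩
    exact ⟨σ⁻¹, by ext v; cases v <;> rfl⟩

theorem card_grp (k a b : ℕ) : Nat.card (grp k a b) = 2 := by
  have hinj : Function.Injective (aut k a b) := fun σ τ h => by
    ext t
    have : mv (k := k) (a := a) (b := b) σ (.w t) = mv τ (.w t) :=
      congrArg (fun g : gr k a b ≃g gr k a b => g (.w t)) h
    simp only [mv, W.w.injEq] at this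
    rw [this]
  have : Nat.card (grp k a b) = Nat.card (Equiv.Perm (Fin 2)) :=
    (Nat.card_congr (Equiv.ofInjective _ hinj)).symm
  rw [this, Nat.card_eq_fintype_card, Fintype.card_perm]
  rfl

theorem grp_fix : ∀ g ∈ grp k a b, ∀ z, z ≠ W.w 0 → z ≠ W.w 1 → g z = z := by
  rintro _ ⟨σ, rfl⟩ z h0 h1
  cases z with
  | w t => fin_cases t <;> simp at h0 h1
  | _ => rfl

theorem card_orb (k a b q : ℕ) :
    Nat.card (Quotient (orbitSetoid (gr k a b) (grp k a b) q)) =
      ∑ c : Fin k → Fin q, (q - (univ.image c).card).multichoose 2 *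
        Nat.card {β : B k a b q // Ok c β} := by
  have hc := card_three (fun (c : Fin k → Fin q) (μ : Sym (Fin q) 2) => ∀ x ∈ μ, x ∉ univ.image c)
    (Ok (k := k) (a := a) (b := b) (q := q))
  simp only [card_sym_avoid] at hc
  rw [← hc]
  let Φ : (gr k a b).Coloring (Fin q) →
      {p : (Fin k → Fin q) × Sym (Fin q) 2 × B k a b q //
        (∀ x ∈ p.2.1, x ∉ univ.image p.1) ∧ Ok p.1 p.2.2} := fun c =>
    ⟨((colEq k a b q c).1.1, toSym (colEq k a b q c).1.2.1, (colEq k a b q c).1.2.2),
      fun x hx => by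
        obtain ⟨l, rfl⟩ := (mem_toSym _ _).1 hx
        exact (colEq k a b q c).2.1 l, (colEq k a b q c).2.2⟩
  have hsurj : Function.Surjective Φ := by
    rintro ⟨⟨c, μ, β⟩, h1, h2⟩
    obtain ⟨h, rfl⟩ := toSym_surj μ
    refine ⟨(colEq k a b q).symm ⟨(c, h, β), fun l => h1 _ ((mem_toSym _ _).2 ⟨l, rfl⟩), h2⟩, ?_⟩
    simp [Φ]
  have hker : orbitSetoid (gr k a b) (grp k a b) q = Setoid.ker Φ := by
    ext c c'
    rw [Setoid.ker_def, Subtype.ext_iff]
    simp only [Φ, Prod.mk.injEq, toSym_eq_iff]
    constructor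
    · rintro ⟨_, ⟨σ, rfl⟩, hσ⟩
      exact ⟨funext fun i => (hσ (.u i)).symm, ⟨σ, fun l => hσ (.w l)⟩,
        Prod.ext (funext fun p => Prod.ext (hσ (.x0 p)).symm (hσ (.x1 p)).symm)
          (funext fun p => Prod.ext (hσ (.y0 p)).symm
            (Prod.ext (hσ (.y1 p)).symm (hσ (.y2 p)).symm))⟩
    · rintro ⟨h1, ⟨σ, hσ⟩, h2⟩
      refine ⟨aut k a b σ, ⟨σ, rfl⟩, fun v => ?_⟩
      cases v with
      | u i => exact (congrFun h1 i).symm
      | w t => exact hσ t
      | x0 p => exact (congrArg (fun β : B k a b q => (β.1 p).1) h2).symm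
      | x1 p => exact (congrArg (fun β : B k a b q => (β.1 p).2) h2).symm
      | y0 p => exact (congrArg (fun β : B k a b q => (β.2 p).1) h2).symm
      | y1 p => exact (congrArg (fun β : B k a b q => (β.2 p).2.1) h2).symm
      | y2 p => exact (congrArg (fun β : B k a b q => (β.2 p).2.2) h2).symm
  rw [hker]
  exact Nat.card_congr (Setoid.quotientKerEquivOfSurjective Φ hsurj)

/-- indicator of being different -/
def dl (s t : Fin q) : ℝ := if s = t then 0 else 1

theorem step (s t : Fin q) (α β : ℝ) :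
    ∑ z, (if s = z then α else β) * dl z t = if s = t then (q - 1) * β else α + (q - 2) * β := by
  have : ∀ z, (if s = z then α else β) * dl z t = β + (if s = z then α - β else 0) -
      (if z = t then (if s = t then α else β) else 0) := by
    intro z
    unfold dl
    by_cases h1 : s = z <;> by_cases h2 : z = t
    · simp [h1, h2]
    · simp [h1, h2]
    · subst h2; simp [h1]
    · simp [h1, h2]
  simp only [this, sum_sub_distrib, sum_add_distrib, sum_const, card_univ, Fintype.card_fin,
    nsmul_eq_mul, sum_ite_eq, sum_ite_eq', mem_univ, if_true]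
  split_ifs <;> ring

theorem step2 (s t : Fin q) : ∑ z, dl s z * dl z t = if s = t then (q : ℝ) - 1 else q - 2 := by
  have := step s t 0 1
  simpa [dl] using this

open Classical in
/-- weights of a path of length three, `x` the number of colours -/
noncomputable def w3 (P : Prop) (x : ℝ) : ℝ :=
  if P then (x - 1) * (x - 2) else (x - 1) + (x - 2) * (x - 2)

open Classical in
/-- weights of a path of length four -/
noncomputable def w4 (P : Prop) (x : ℝ) : ℝ :=
  if P then (x - 1) * ((x - 1) + (x - 2) * (x - 2))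
  else (x - 1) * (x - 2) + (x - 2) * ((x - 1) + (x - 2) * (x - 2))

theorem step3 (s t : Fin q) : ∑ z', ∑ z, dl s z * dl z z' * dl z' t = w3 (s = t) q := by
  simp only [← sum_mul, step2, step]
  unfold w3
  split_ifs <;> rfl

theorem card_E3 (s t : Fin q) : (Nat.card {z // E3 s t z} : ℝ) = w3 (s = t) q := by
  classical
  rw [Nat.card_eq_fintype_card, Fintype.card_subtype, natCast_card_filter,
    Fintype.sum_prod_type_right, ← step3]
  refine sum_congr rfl fun z' _ => sum_congr rfl fun z _ => ?_
  unfold E3 dl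
  by_cases h1 : s = z <;> by_cases h2 : z = z' <;> by_cases h3 : z' = t <;>
    simp [h1, h2, h3]

theorem card_E4 (s t : Fin q) : (Nat.card {z // E4 s t z} : ℝ) = w4 (s = t) q := by
  classical
  have h : ∑ z'', ∑ z', ∑ z, dl s z * dl z z' * dl z' z'' * dl z'' t = w4 (s = t) q := by
    simp only [← sum_mul, step2, step]
    unfold w4
    split_ifs <;> rfl
  rw [Nat.card_eq_fintype_card, Fintype.card_subtype, natCast_card_filter,
    Fintype.sum_prod_type_right, Fintype.sum_prod_type_right, ← h]
  refine sum_congr rfl fun z'' _ => sum_congr rfl fun z' _ => sum_congr rfl fun z _ => ?_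
  unfold E4 dl
  by_cases h1 : s = z <;> by_cases h2 : z = z' <;> by_cases h3 : z' = z'' <;>
    by_cases h4 : z'' = t <;> simp [h1, h2, h3, h4]

theorem card_Ok (c : Fin k → Fin q) : (Nat.card {β : B k a b q // Ok c β} : ℝ) =
    ∏ p : Fin k × Fin k, w3 (c p.1 = c p.2) q ^ a * w4 (c p.1 = c p.2) q ^ b := by
  have e := (Equiv.subtypeProdEquivProd
    (p := fun g : I k a → Fin q × Fin q => ∀ p, E3 (c p.1) (c p.2.1) (g p))
    (q := fun g : I k b → Fin q × Fin q × Fin q => ∀ p, E4 (c p.1) (c p.2.1) (g p))).trans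
    (Equiv.prodCongr
      (Equiv.subtypePiEquivPi (p := fun (p : I k a) z => E3 (c p.1) (c p.2.1) z))
      (Equiv.subtypePiEquivPi (p := fun (p : I k b) z => E4 (c p.1) (c p.2.1) z)))
  have e' : Nat.card {β : B k a b q // Ok c β} = _ := Nat.card_congr e
  rw [e', Nat.card_prod, Nat.card_pi, Nat.card_pi]
  push_cast
  simp only [card_E3, card_E4, Fintype.prod_prod_type, prod_const, card_univ, Fintype.card_fin,
    prod_mul_distrib]

instance : Finite (Setoid (Fin k)) :=
  Finite.of_injective (fun π : Setoid (Fin k) => π.r) fun _ _ h =>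
    Setoid.ext fun x y => iff_of_eq (congrFun (congrFun h x) y)

/-- number of classes -/
noncomputable def rk (π : Setoid (Fin k)) : ℕ := Nat.card (Quotient π)

theorem rk_ker (c : Fin k → Fin q) : rk (Setoid.ker c) = (univ.image c).card := by
  rw [rk, Nat.card_congr (Setoid.quotientKerEquivRange c), Nat.card_eq_card_toFinset,
    Set.toFinset_range]

theorem rk_le (π : Setoid (Fin k)) : rk π ≤ k := by
  simpa [rk] using Nat.card_le_card_of_surjective (Quotient.mk π) Quotient.mk_surjective

theorem card_fiber (π : Setoid (Fin k)) :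
    Nat.card {c : Fin k → Fin q // Setoid.ker c = π} = q.descFactorial (rk π) := by
  classical
  have e : {c : Fin k → Fin q // Setoid.ker c = π} ≃ (Quotient π ↪ Fin q) :=
    { toFun := fun c => ⟨Quotient.lift c.1 fun x y h => by
          have : Setoid.ker c.1 x y := by rw [c.2]; exact h
          exact this, by
          rintro ⟨x⟩ ⟨y⟩ h
          have : Setoid.ker c.1 x y := h
          rw [c.2] at this
          exact Quotient.sound this⟩
      invFun := fun f => ⟨fun x => f (Quotient.mk π x), by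
          ext x y
          rw [Setoid.ker_def, f.injective.eq_iff, Quotient.eq]⟩
      left_inv := fun c => rfl
      right_inv := fun f => by ext ⟨x⟩; rfl }
  have := Fintype.ofFinite (Quotient π)
  rw [Nat.card_congr e, Nat.card_eq_fintype_card, Fintype.card_embedding_eq, Fintype.card_fin, rk,
    Nat.card_eq_fintype_card]

theorem sum_ker [Fintype (Setoid (Fin k))] (F : Setoid (Fin k) → ℝ) :
    ∑ c : Fin k → Fin q, F (Setoid.ker c) = ∑ π, dsc q (rk π) * F π := by
  classical
  rw [← Finset.sum_fiberwise (s := univ) (g := fun c : Fin k → Fin q => Setoid.ker c)]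
  refine sum_congr rfl fun π _ => ?_
  rw [sum_congr rfl (g := fun _ => F π) (fun c hc => by rw [(mem_filter.1 hc).2]), sum_const,
    nsmul_eq_mul, dsc_nat, ← card_fiber, Nat.card_eq_fintype_card, Fintype.card_subtype]

end Pool.Agent.Lib.MP_fefe6a_co.Two
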