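import Pool.Agent.Lib.MP_fefe6a_co.TwoCount

/-!
The chromatic and the orbital chromatic polynomial of the graph of `TwoCount`, as sums over the
partitions of the terminals, and their signs.
-/

namespace Pool.Agent.Lib.MP_fefe6a_co.Two

open Finset Polynomial

variable {k : ℕ}

noncomputable instance : Fintype (Setoid (Fin k)) := Fintype.ofFinite _

open Classical in
/-- `w3` as a polynomial -/
noncomputable def p3 (P : Prop) : ℝ[X] :=
  if P then (X - 1) * (X - 2) else (X - 1) + (X - 2) * (X - 2)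

open Classical in
/-- `w4` as a polynomial -/
noncomputable def p4 (P : Prop) : ℝ[X] :=
  if P then (X - 1) * ((X - 1) + (X - 2) * (X - 2))
  else (X - 1) * (X - 2) + (X - 2) * ((X - 1) + (X - 2) * (X - 2))

theorem eval_p3 (P : Prop) (x : ℝ) : (p3 P).eval x = w3 P x := by
  unfold p3 w3; split_ifs <;> simp

theorem eval_p4 (P : Prop) (x : ℝ) : (p4 P).eval x = w4 P x := by
  unfold p4 w4; split_ifs <;> simp

/-- weight of a partition -/
noncomputable def wt (π : Setoid (Fin k)) (a b : ℕ) (x : ℝ) : ℝ :=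
  ∏ p : Fin k × Fin k, w3 (π p.1 p.2) x ^ a * w4 (π p.1 p.2) x ^ b

/-- chromatic polynomial -/
noncomputable def PP (k a b : ℕ) : ℝ[X] :=
  ∑ π : Setoid (Fin k), (∏ i ∈ range (rk π), (X - C (i : ℝ))) * ((X - C (rk π : ℝ)) ^ 2 *
    ∏ p : Fin k × Fin k, p3 (π p.1 p.2) ^ a * p4 (π p.1 p.2) ^ b)

/-- orbital chromatic polynomial -/
noncomputable def QQ (k a b : ℕ) : ℝ[X] :=
  ∑ π : Setoid (Fin k), (∏ i ∈ range (rk π), (X - C (i : ℝ))) *
    ((X - C (rk π : ℝ)) * (X - C (rk π : ℝ) + 1) * C (1 / 2) *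
      ∏ p : Fin k × Fin k, p3 (π p.1 p.2) ^ a * p4 (π p.1 p.2) ^ b)

theorem eval_PP (k a b : ℕ) (x : ℝ) : (PP k a b).eval x =
    ∑ π : Setoid (Fin k), dsc x (rk π) * ((x - rk π) ^ 2 * wt π a b x) := by
  simp [PP, eval_finsetSum, eval_prod, dsc, wt, eval_p3, eval_p4]

theorem eval_QQ (k a b : ℕ) (x : ℝ) : (QQ k a b).eval x =
    ∑ π : Setoid (Fin k), dsc x (rk π) * ((x - rk π) * (x - rk π + 1) * (1 / 2) * wt π a b x) := by
  simp [QQ, eval_finsetSum, eval_prod, dsc, wt, eval_p3, eval_p4]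

theorem img_le {q : ℕ} (c : Fin k → Fin q) : (univ.image c).card ≤ q := by
  simpa using card_le_univ (univ.image c)

theorem isChrom (k a b : ℕ) : IsChromaticPoly (gr k a b) (PP k a b) := by
  intro q _
  rw [card_col, eval_PP, ← sum_ker (fun π => ((q : ℝ) - rk π) ^ 2 * wt π a b q), Nat.cast_sum]
  refine sum_congr rfl fun c _ => ?_
  rw [Nat.cast_mul, card_Ok, rk_ker, Nat.cast_pow, Nat.cast_sub (img_le c)]
  rfl

theorem isOrb (k a b : ℕ) : IsOrbitalChromaticPoly (gr k a b) (grp k a b) (QQ k a b) := by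
  intro q _
  rw [card_orb, eval_QQ,
    ← sum_ker (fun π => ((q : ℝ) - rk π) * (q - rk π + 1) * (1 / 2) * wt π a b q), Nat.cast_sum]
  refine sum_congr rfl fun c _ => ?_
  have h := asc_nat (q - (univ.image c).card) 2
  rw [Nat.cast_sub (img_le c)] at h
  simp only [asc, prod_range_succ, prod_range_zero, Nat.factorial] at h
  rw [Nat.cast_mul, card_Ok, rk_ker]
  congr 1
  push_cast at h
  linarith

theorem cmp {ι : Type} [Fintype ι] {g h : ι → ℝ} {ρ : ℝ} (i₀ : ι) (hg : ∀ i, 0 ≤ g i)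
    (hle : ∀ i, g i ≤ h i) (h0 : g i₀ ≤ ρ * h i₀) : ∏ i, g i ≤ ρ * ∏ i, h i := by
  classical
  rw [← mul_prod_erase univ g (mem_univ i₀), ← mul_prod_erase univ h (mem_univ i₀), ← mul_assoc]
  exact mul_le_mul h0 (prod_le_prod (fun i _ => hg i) fun i _ => hle i)
    (prod_nonneg fun i _ => hg i) ((hg i₀).trans h0)

theorem dom {ι : Type} [Fintype ι] {c w : ι → ℝ} {K ε : ℝ} (i₀ : ι) (hK : 0 ≤ K) (hε : 0 ≤ ε)
    (hc : ∀ i, |c i| ≤ K) (hw : ∀ i, 0 ≤ w i) (hw' : ∀ i, i ≠ i₀ → w i ≤ ε * w i₀)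
    (h0 : 0 < w i₀) (h : Fintype.card ι * K * ε < c i₀) : 0 < ∑ i, c i * w i := by
  classical
  have h1 : ∀ i ∈ univ.erase i₀, -(K * ε * w i₀) ≤ c i * w i := by
    intro i hi
    have h2 := hw' i (ne_of_mem_erase hi)
    have h3 := mul_le_mul_of_nonneg_right (neg_le_of_abs_le (hc i)) (hw i)
    have h4 := mul_le_mul_of_nonneg_left h2 hK
    linarith
  have h2 := card_nsmul_le_sum _ _ _ h1
  have h3 : ((univ.erase i₀).card : ℝ) ≤ Fintype.card ι := by exact_mod_cast card_le_univ _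
  have h4 : 0 ≤ K * ε * w i₀ := by positivity
  have h5 := mul_le_mul_of_nonneg_right h3 h4
  have h6 := mul_lt_mul_of_pos_right h h0
  rw [← add_sum_erase _ _ (mem_univ i₀)]
  rw [nsmul_eq_mul] at h2
  linarith

/-- weight of one block of two short and `n + 2` long paths -/
noncomputable def blk (P : Prop) (n : ℕ) (x : ℝ) : ℝ := w3 P x ^ 2 * w4 P x ^ (n + 2)

theorem wt_eq (π : Setoid (Fin k)) (n M : ℕ) (x : ℝ) :
    wt π (2 * M) ((n + 2) * M) x = (∏ p : Fin k × Fin k, blk (π p.1 p.2) n x) ^ M := by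
  simp only [wt, blk, pow_mul, ← mul_pow, prod_pow]

theorem blk_pos (P : Prop) (n : ℕ) {x : ℝ} (hx : 2 < x) : 0 < blk P n x := by
  have h1 : 0 < x - 1 := by linarith
  have h2 : 0 < x - 2 := by linarith
  unfold blk w3 w4
  split_ifs <;> positivity

theorem blk_ratio (n : ℕ) {y : ℝ} (hy : 1 < y) : blk False n (y + 1) = blk True n (y + 1) *
    ((1 + 1 / y ^ 2) ^ 2 * (1 - 1 / (y * (y ^ 2 - y + 1))) ^ n) := by
  have h0 : y ≠ 0 := by positivity
  have h1 : y ^ 2 - y + 1 ≠ 0 := by nlinarith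
  have e4 : w4 False (y + 1) = w4 True (y + 1) * (1 - 1 / (y * (y ^ 2 - y + 1))) := by
    have a1 : w4 True (y + 1) = y * (y ^ 2 - y + 1) := by simp only [w4, if_true]; ring
    rw [a1, mul_sub _ 1, mul_one_div_cancel (mul_ne_zero h0 h1)]
    simp only [w4, if_false]
    ring
  have e3 : w3 False (y + 1) * w4 False (y + 1) =
      w3 True (y + 1) * w4 True (y + 1) * (1 + 1 / y ^ 2) := by
    simp only [w3, w4, if_true, if_false]
    field_simp
    ring
  calc blk False n (y + 1) = (w3 False (y + 1) * w4 False (y + 1)) ^ 2 * w4 False (y + 1) ^ n := by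
        unfold blk; ring
    _ = _ := by
        rw [e3]
        nth_rewrite 1 [e4]
        unfold blk
        rw [mul_pow (w4 True (y + 1))]
        ring

theorem ferro {n : ℕ} {K y : ℝ} (hn : 9 ≤ n) (hy : 1 < y) (hK : y ≤ K) (h : 2 * y - 1 ≤ n) :
    (1 + 1 / y ^ 2) ^ 2 * (1 - 1 / (y * (y ^ 2 - y + 1))) ^ n ≤ 4 / (4 + 1 / K ^ 6) := by
  have hy0 : 0 < y := by linarith
  have hK0 : 0 < K := by linarith
  have hn' : (9 : ℝ) ≤ n := by exact_mod_cast hn
  have d1 : 1 ≤ y ^ 2 - y + 1 := by nlinarith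
  have d2 : y ^ 2 - y + 1 ≤ y ^ 2 := by linarith
  have y2 : 1 ≤ y ^ 2 := by nlinarith
  have y3 : 1 ≤ y ^ 3 := one_le_pow₀ hy.le
  set s := y * (y ^ 2 - y + 1) with hs
  have s1 : 1 ≤ s := by nlinarith
  have t0 : 0 ≤ 1 / s := by positivity
  have t1 : 1 / s ≤ 1 := by rw [div_le_one (by linarith)]; exact s1
  have hb : (1 - 1 / s) ^ n * (1 + n * (1 / s)) ≤ 1 := by
    calc (1 - 1 / s) ^ n * (1 + n * (1 / s)) ≤ (1 - 1 / s) ^ n * (1 + 1 / s) ^ n :=
          mul_le_mul_of_nonneg_left (one_add_mul_le_pow (by linarith) n)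
            (pow_nonneg (by linarith) n)
      _ = ((1 - 1 / s) * (1 + 1 / s)) ^ n := (mul_pow _ _ _).symm
      _ ≤ 1 := pow_le_one₀ (mul_nonneg (by linarith) (by linarith)) (by nlinarith)
  have hg : 1 ≤ n * y ^ 3 - (2 * y ^ 2 + 1) * (y ^ 2 - y + 1) := by
    rcases le_total y 3 with h3 | h3
    · have a1 : 9 * y ^ 3 ≤ n * y ^ 3 := mul_le_mul_of_nonneg_right hn' (by positivity)
      have a2 : y ^ 3 * y ≤ y ^ 3 * 3 := mul_le_mul_of_nonneg_left h3 (by positivity)
      have a3 : y ^ 2 * 1 ≤ y ^ 2 * y := mul_le_mul_of_nonneg_left hy.le (by positivity)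
      linarith
    · have a1 : (2 * y - 1) * y ^ 3 ≤ n * y ^ 3 := mul_le_mul_of_nonneg_right h (by positivity)
      have a2 : y ^ 2 * 3 ≤ y ^ 2 * y := mul_le_mul_of_nonneg_left h3 (by positivity)
      linarith
  have hd : y ^ 3 * s ≤ K ^ 6 := by
    have a1 : s ≤ y * y ^ 2 := mul_le_mul_of_nonneg_left d2 hy0.le
    have a2 : y ^ 3 * s ≤ y ^ 3 * (y * y ^ 2) := mul_le_mul_of_nonneg_left a1 (by positivity)
    have a3 : y ^ 6 ≤ K ^ 6 := pow_le_pow_left₀ hy0.le hK 6
    linarith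
  have hA : (1 + 1 / y ^ 2) ^ 2 + 1 / K ^ 6 ≤ 1 + n * (1 / s) := by
    have e : 1 + n * (1 / s) - (1 + 1 / y ^ 2) ^ 2 =
        (n * y ^ 3 - (2 * y ^ 2 + 1) * (y ^ 2 - y + 1)) / (y ^ 3 * s) := by
      have : y ^ 2 - y + 1 ≠ 0 := by linarith
      rw [hs]
      generalize y ^ 2 - y + 1 = d at this ⊢
      field_simp
      ring
    have : 1 / K ^ 6 ≤ (n * y ^ 3 - (2 * y ^ 2 + 1) * (y ^ 2 - y + 1)) / (y ^ 3 * s) :=
      div_le_div₀ (by linarith) hg (by positivity) hd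
    linarith
  have hA4 : (1 + 1 / y ^ 2) ^ 2 ≤ 4 := by
    have a1 : 1 / y ^ 2 ≤ 1 := by rw [div_le_one (by positivity)]; exact y2
    have a2 : 0 ≤ 1 / y ^ 2 := by positivity
    nlinarith
  have hδ : 0 < 1 / K ^ 6 := by positivity
  have hp : 0 ≤ (1 - 1 / s) ^ n := pow_nonneg (by linarith) n
  rw [le_div_iff₀ (by positivity)]
  set A := (1 + 1 / y ^ 2) ^ 2
  set δ := 1 / K ^ 6
  set u := (1 - 1 / s) ^ n
  have a1 : A * δ ≤ 4 * δ := mul_le_mul_of_nonneg_right hA4 hδ.le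
  have a2 : u * (A * (4 + δ)) ≤ u * (4 * (1 + n * (1 / s))) :=
    mul_le_mul_of_nonneg_left (by linarith) hp
  linarith

theorem anti {n : ℕ} {y : ℝ} (hy : 1 < y) (h : (n : ℝ) = 2 * y - 5 / 2) :
    1 < (1 + 1 / y ^ 2) ^ 2 * (1 - 1 / (y * (y ^ 2 - y + 1))) ^ n := by
  have hy0 : 0 < y := by linarith
  have d1 : 1 ≤ y ^ 2 - y + 1 := by nlinarith
  set s := y * (y ^ 2 - y + 1) with hs
  have s1 : 1 ≤ s := by nlinarith
  have t1 : 1 / s ≤ 1 := by rw [div_le_one (by linarith)]; exact s1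
  have hb : 1 + n * (-(1 / s)) ≤ (1 - 1 / s) ^ n := by
    rw [sub_eq_add_neg]; exact one_add_mul_le_pow (by linarith) n
  have hp : 0 ≤ (1 - 1 / s) ^ n := pow_nonneg (by linarith) n
  have a0 : 0 ≤ 1 / y ^ 2 := by positivity
  have a1 : 1 + 2 * (1 / y ^ 2) ≤ (1 + 1 / y ^ 2) ^ 2 := by nlinarith
  have e : (1 + 2 * (1 / y ^ 2)) * (1 + n * (-(1 / s))) - 1 =
      ((y - 2) ^ 2 / 2 + 3) / (y ^ 2 * s) := by
    have e' : (y - 2) ^ 2 / 2 + 3 = 2 * s - n * (y ^ 2 + 2) := by rw [h, hs]; ring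
    have : s ≠ 0 := by linarith
    rw [e']
    clear_value s
    field_simp
    ring
  have a2 : 0 < ((y - 2) ^ 2 / 2 + 3) / (y ^ 2 * s) := by positivity
  have a3 := mul_le_mul_of_nonneg_left hb (show 0 ≤ 1 + 2 * (1 / y ^ 2) by positivity)
  have a4 := mul_le_mul_of_nonneg_right a1 hp
  linarith

theorem dsc_pos {x : ℝ} {j : ℕ} (hj : j ≤ k) (hx : (k : ℝ) - 1 < x) : 0 < dsc x j :=
  prod_pos fun i hi => by
    have : ((i + 1 : ℕ) : ℝ) ≤ k := by exact_mod_cast (mem_range.1 hi).trans_le hj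
    push_cast at this
    linarith

/-- the partition with one class -/
def top (k : ℕ) : Setoid (Fin k) := Setoid.ker fun _ => (0 : Fin 1)

/-- the partition into points -/
def bot (k : ℕ) : Setoid (Fin k) := Setoid.ker id

theorem rk_top (hk : 0 < k) : rk (top k) = 1 := by
  have : Nonempty (Fin k) := ⟨⟨0, hk⟩⟩
  rw [top, rk_ker, image_const univ_nonempty, card_singleton]

theorem rk_bot : rk (bot k) = k := by
  rw [bot, rk_ker, image_id, card_fin]

theorem signs (m : ℕ) : ∃ M : ℕ, 0 < M ∧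
    (∀ x : ℝ, 2 < x → 0 < (PP (m + 7) (2 * M) ((2 * m + 9 + 2) * M)).eval x) ∧
    (QQ (m + 7) (2 * M) ((2 * m + 9 + 2) * M)).eval ((m : ℝ) + 7 - 1 / 4) < 0 := by
  set k := m + 7 with hk
  set n := 2 * m + 9 with hn
  have hm : (0 : ℝ) ≤ m := by positivity
  have hkR : (k : ℝ) = m + 7 := by rw [hk]; push_cast; rfl
  have hnR : (n : ℝ) = 2 * m + 9 := by rw [hn]; push_cast; rfl
  have k0 : (0 : ℝ) < k := by linarith
  set x₀ : ℝ := (m : ℝ) + 7 - 1 / 4 with hx₀
  set K : ℝ := (k : ℝ) ^ k * k ^ 2 with hKdef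
  set L : ℝ := Fintype.card (Setoid (Fin k)) * K with hL
  have hK : 0 < K := by positivity
  have hL0 : 0 < L := by
    have : (0 : ℝ) < Fintype.card (Setoid (Fin k)) := by
      exact_mod_cast Fintype.card_pos_iff.2 ⟨top k⟩
    positivity
  have hr : ∀ π : Setoid (Fin k), (rk π : ℝ) ≤ k := fun π => by exact_mod_cast rk_le π
  have hr0 : ∀ π : Setoid (Fin k), (0 : ℝ) ≤ rk π := fun π => by positivity
  have hd : ∀ (x : ℝ), 0 ≤ x → x ≤ k → ∀ π : Setoid (Fin k), |dsc x (rk π)| ≤ (k : ℝ) ^ k :=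
    fun x h0 h1 π => abs_dsc_le h0 h1 (by linarith) (rk_le π) le_rfl
  set ρ : ℝ := 4 / (4 + 1 / (k : ℝ) ^ 6) with hρ
  have hρ0 : 0 ≤ ρ := by positivity
  have hρ1 : ρ < 1 := by
    rw [hρ, div_lt_one (by positivity)]
    have : (0 : ℝ) < 1 / (k : ℝ) ^ 6 := by positivity
    linarith
  have x2 : 2 < x₀ := by linarith
  have hTF : blk True n x₀ < blk False n x₀ := by
    have h1 := blk_ratio n (y := x₀ - 1) (by linarith)
    have h2 := anti (n := n) (y := x₀ - 1) (by linarith) (by linarith)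
    rw [sub_add_cancel] at h1
    rw [h1]
    exact lt_mul_of_one_lt_right (blk_pos _ _ x2) h2
  set σ : ℝ := blk True n x₀ / blk False n x₀ with hσ
  have hσ0 : 0 ≤ σ := (div_pos (blk_pos _ _ x2) (blk_pos _ _ x2)).le
  have hσ1 : σ < 1 := (div_lt_one (blk_pos _ _ x2)).2 hTF
  have hc1 : 0 < dsc x₀ k := dsc_pos le_rfl (by linarith)
  obtain ⟨M₁, h₁⟩ := exists_pow_lt_of_lt_one (show 0 < 1 / L by positivity) hρ1
  obtain ⟨M₂, h₂⟩ := exists_pow_lt_of_lt_one (show 0 < dsc x₀ k * (3 / 32) / L by positivity) hσ1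
  set M := M₁ + M₂ + 1 with hM
  have h₁' : L * ρ ^ M < 1 := by
    have := (pow_le_pow_of_le_one hρ0 hρ1.le (show M₁ ≤ M by omega)).trans_lt h₁
    rwa [lt_div_iff₀' hL0] at this
  have h₂' : L * σ ^ M < dsc x₀ k * (3 / 32) := by
    have := (pow_le_pow_of_le_one hσ0 hσ1.le (show M₂ ≤ M by omega)).trans_lt h₂
    rwa [lt_div_iff₀' hL0] at this
  have hw : ∀ (π : Setoid (Fin k)) (x : ℝ), 2 < x →
      0 < ∏ p : Fin k × Fin k, blk (π p.1 p.2) n x :=
    fun π x hx => prod_pos fun p _ => blk_pos _ _ hx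
  have hT : ∀ (P : Prop) (x : ℝ), P → blk P n x = blk True n x := fun P x h => by
    rw [eq_true h]
  have hF : ∀ (P : Prop) (x : ℝ), ¬ P → blk P n x = blk False n x := fun P x h => by
    rw [eq_false h]
  refine ⟨M, by omega, fun x hx => ?_, ?_⟩
  · rw [eval_PP]
    simp only [wt_eq, ← mul_assoc]
    have c0 : 1 < dsc x (rk (top k)) * (x - rk (top k)) ^ 2 := by
      rw [rk_top (by omega)]
      simp only [dsc, prod_range_one, Nat.cast_zero, sub_zero, Nat.cast_one]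
      nlinarith
    rcases lt_or_ge ((k : ℝ) - 1) x with hk1 | hk1
    · refine sum_pos' (fun π _ => ?_) ⟨top k, mem_univ _, ?_⟩
      · have := dsc_pos (rk_le π) hk1
        have := hw π x hx
        positivity
      · exact mul_pos (by linarith) (pow_pos (hw _ x hx) _)
    · have hFT : blk False n x ≤ ρ * blk True n x := by
        have h1 := blk_ratio n (y := x - 1) (by linarith)
        have h2 := ferro (n := n) (K := k) (y := x - 1) (by omega) (by linarith) (by linarith)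
          (by linarith)
        rw [sub_add_cancel] at h1
        rw [h1, mul_comm ρ]
        exact mul_le_mul_of_nonneg_left h2 (blk_pos _ _ hx).le
      have hFT' : blk False n x ≤ blk True n x :=
        hFT.trans (mul_le_of_le_one_left (blk_pos _ _ hx).le hρ1.le)
      refine dom (K := K) (ε := ρ ^ M) (top k) hK.le (by positivity) (fun π => ?_)
        (fun π => (pow_pos (hw π x hx) _).le) (fun π hπ => ?_) (pow_pos (hw _ x hx) _)
        (h₁'.trans c0)
      · rw [abs_mul, abs_pow]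
        refine mul_le_mul (hd x (by linarith) (by linarith) π) ?_ (by positivity) (by positivity)
        refine pow_le_pow_left₀ (abs_nonneg _) (abs_le.2 ⟨?_, ?_⟩) 2
        · linarith [hr π]
        · linarith [hr0 π]
      · obtain ⟨i, j, hij⟩ : ∃ i j, ¬ π i j := by
          by_contra hcon
          push Not at hcon
          exact hπ (Setoid.ext fun i j => ⟨fun _ => rfl, fun _ => hcon i j⟩)
        rw [← mul_pow]
        refine pow_le_pow_left₀ (hw π x hx).le (cmp (i, j) (fun p => (blk_pos _ _ hx).le)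
          (fun p => ?_) ?_) M
        · rw [hT (top k p.1 p.2) x rfl]
          by_cases h : π p.1 p.2
          · rw [hT _ x h]
          · rw [hF _ x h]; exact hFT'
        · rw [hT (top k i j) x rfl, hF _ x hij]; exact hFT
  · rw [eval_QQ, ← neg_pos, ← sum_neg_distrib]
    simp only [wt_eq, ← mul_assoc, ← neg_mul]
    refine dom (K := K) (ε := σ ^ M) (bot k) hK.le (by positivity) (fun π => ?_)
      (fun π => (pow_pos (hw π x₀ x2) _).le) (fun π hπ => ?_) (pow_pos (hw _ x₀ x2) _) ?_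
    · rw [mul_assoc, mul_assoc, abs_mul, abs_neg]
      refine mul_le_mul (hd x₀ (by linarith) (by linarith) π) ?_ (by positivity) (by positivity)
      rw [abs_mul, sq]
      refine mul_le_mul (abs_le.2 ⟨?_, ?_⟩) (abs_le.2 ⟨?_, ?_⟩) (by positivity) k0.le <;>
        linarith [hr π, hr0 π]
    · obtain ⟨i, j, hne, hij⟩ : ∃ i j, i ≠ j ∧ π i j := by
        by_contra hcon
        push Not at hcon
        refine hπ (Setoid.ext fun i j => ⟨fun h => ?_, fun h => ?_⟩)
        · by_contra hne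
          exact hcon i j hne h
        · rw [show i = j from h]
      rw [← mul_pow]
      refine pow_le_pow_left₀ (hw π x₀ x2).le (cmp (i, j) (fun p => (blk_pos _ _ x2).le)
        (fun p => ?_) ?_) M
      · by_cases h : p.1 = p.2
        · rw [hT (bot k p.1 p.2) x₀ h, hT (π p.1 p.2) x₀ (by rw [h])]
        · rw [hF (bot k p.1 p.2) x₀ h]
          by_cases h' : π p.1 p.2
          · rw [hT _ x₀ h']; exact hTF.le
          · rw [hF _ x₀ h']
      · rw [hF (bot k i j) x₀ hne, hT _ x₀ hij, hσ, div_mul_cancel₀ _ (blk_pos _ _ x2).ne']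
    · rw [rk_bot]
      have e : -dsc x₀ k * (x₀ - k) * (x₀ - k + 1) * (1 / 2) = dsc x₀ k * (3 / 32) := by
        rw [hkR, hx₀]; ring
      rw [e]
      exact h₂'

theorem root_two {a : ℕ} (b : ℕ) (hk : 0 < k) (ha : 0 < a) : (PP k a b).eval 2 = 0 := by
  rw [eval_PP]
  refine sum_eq_zero fun π _ => ?_
  have : wt π a b 2 = 0 := prod_eq_zero (mem_univ (⟨0, hk⟩, ⟨0, hk⟩)) (by simp [w3, ha.ne'])
  simp [this]

end Pool.Agent.Lib.MP_fefe6a_co.Two
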